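import Mathlib

/-! # Steinhaus' problem for bodies of revolution: definitions (project REV, MP_34631e_gt) -/

open MeasureTheory Filter Topology

namespace Pool.Agent.Lib_helper59.REV

/-- three dimensional Euclidean space -/
abbrev E3 : Type := EuclideanSpace ℝ (Fin 3)

/-- the Euclidean plane -/
abbrev E2 : Type := EuclideanSpace ℝ (Fin 2)

/-- Minkowski content: the lower limit of (volume of the outer `ε`-shell of `K`)/`ε` as `ε → 0+`;
for convex bodies this is the surface area (n = 3) or the perimeter (n = 2). -/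
noncomputable def bd {n : ℕ} (K : Set (EuclideanSpace ℝ (Fin n))) : ENNReal :=
  liminf (fun ε : ℝ => volume (Metric.cthickening ε K \ K) / ENNReal.ofReal ε) (𝓝[>] (0:ℝ))

/-- the numbers `A / L ^ 2` of the plane sections of `K` of positive area; a plane is given by an
isometric embedding `P` of the Euclidean plane, the section is `P ⁻¹' K` -/
def iot (K : Set E3) : Set ℝ :=
  {x | ∃ P : E2 →ᵃⁱ[ℝ] E3, 0 < volume (P ⁻¹' K) ∧
    x = (volume (P ⁻¹' K)).toReal / (bd (P ⁻¹' K)).toReal ^ 2}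

/-! ## auxiliary definitions, used in the proof only -/

/-- distance from the origin of the plane of the first two coordinates -/
noncomputable def nr (p : ℝ × ℝ) : ℝ := √(p.1 ^ 2 + p.2 ^ 2)

/-- the open disc of radius `R` -/
def disc (R : ℝ) : Set (ℝ × ℝ) := {p | p.1 ^ 2 + p.2 ^ 2 < R ^ 2}

/-- area element of the graph of `f ∘ nr` -/
noncomputable def gr (f : ℝ → ℝ) (r : ℝ) : ℝ := √(1 + deriv f r ^ 2)

/-- length element of the graph of `f ∘ nr` over the line `{d} × ℝ` -/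
noncomputable def gl (f : ℝ → ℝ) (d s : ℝ) : ℝ :=
  √(1 + (deriv f (nr (d, s)) * (s / nr (d, s))) ^ 2)

/-- a concave cap function on `[0,R]` -/
structure Cap (R : ℝ) (u : ℝ → ℝ) : Prop where
  hR : 0 < R
  conc : ConcaveOn ℝ (Set.Icc 0 R) u
  anti : AntitoneOn u (Set.Icc 0 R)
  cont : ContinuousOn u (Set.Icc 0 R)

/-- profile of a convex body of revolution: height `u` above, `-v` below -/
structure Prof (R : ℝ) (u v : ℝ → ℝ) : Prop where
  cu : Cap R u
  cv : Cap R v
  hh : 0 ≤ u R + v R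
  pos : 0 < u 0 + v 0

/-- the body of revolution with the profile -/
def Bo (R : ℝ) (u v : ℝ → ℝ) : Set E3 :=
  {x | x 0 ^ 2 + x 1 ^ 2 ≤ R ^ 2 ∧ -v (nr (x 0, x 1)) ≤ x 2 ∧ x 2 ≤ u (nr (x 0, x 1))}

/-- the section with the plane `x 0 = d` -/
def sec (K : Set E3) (d : ℝ) : Set E2 := {p | !₂[d, p 0, p 1] ∈ K}

/-- the upper bound for the surface area -/
noncomputable def S1 (R : ℝ) (u v : ℝ → ℝ) : ENNReal :=
  (∫⁻ p in disc R, ENNReal.ofReal (gr u (nr p))) + (∫⁻ p in disc R, ENNReal.ofReal (gr v (nr p))) +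
    ENNReal.ofReal (2 * Real.pi * R * (u R + v R))

/-- the lower bound for the perimeter of the section with `x 0 = d` -/
noncomputable def L0 (R : ℝ) (u v : ℝ → ℝ) (d : ℝ) : ENNReal :=
  (∫⁻ s in Set.Ioo (-√(R ^ 2 - d ^ 2)) (√(R ^ 2 - d ^ 2)), ENNReal.ofReal (gl u d s)) +
  (∫⁻ s in Set.Ioo (-√(R ^ 2 - d ^ 2)) (√(R ^ 2 - d ^ 2)), ENNReal.ofReal (gl v d s)) +
    ENNReal.ofReal (2 * (u R + v R))

end Pool.Agent.Lib_helper59.REV
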